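import Mathlib
import Pool.Agent.H16.ORS.W

/-!
# MP_5182ad_lc, oracle barrier with short advice: row LIM (the limit of the stages)
-/

open Polynomial Finset
open Pool.ORB (Ad pre str Wo Enu Acc Tr inl al un LL AgO pair OM PT NP UP coUP Sig S2 PH AdvL S2L
  Fct FS Fn Val ans Hp Tp Np Sp)

namespace Pool.ORS

/-- States of the construction: a well formed world and a level above all its wrong addresses. -/
private abbrev StL (en : Enu) : Type :=
  {p : Wo × ℕ // WF en p.1 ∧ ∀ e, Wrong en p.1 e → lev en e ≤ p.2}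

theorem lim_row (h1 : STGStmt) (h2 : BASStmt) (_h3 : ORWStmt) (h4 : ACCStmt) (_h5 : STRStmt) :
    LIMStmt := by
  intro f ℓ en cM cP cr cl hc hcl
  obtain ⟨_, _, hA3⟩ := h4
  obtain ⟨ω0, hω0, hw0⟩ := h2 en
  have hst : ∀ (k : ℕ) (s : StL en), ∃ (s' : StL en) (n S : ℕ) (B : Finset Ad),
      s.1.2 ≤ n ∧ n < s'.1.2 ∧ Agr en n s.1.1 s'.1.1 ∧ Many en f k n S ∧ B.card ≤ S ∧
      (∀ e, n < lev en e → Wrong en s'.1.1 e → e ∈ B) ∧
      ∀ ω'' : Wo, WF en ω'' → Agr en s'.1.2 s'.1.1 ω'' →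
        Fail (cM k) (cP k) (cl k) (orc en ω'') := by
    intro k s
    obtain ⟨ω', n, ℓ', S, hW, hn, hl, hA, hM, ⟨B, hB1, hB2⟩, hF⟩ :=
      h1 f ℓ en k (cM k) (cP k) (cr k) (cl k) s.1.1 s.1.2 hc (hcl k) s.2.1
    refine ⟨⟨(ω', ℓ'), hW, ?_⟩, n, S, B, hn, hl, hA, hM, hB1, ?_, hF⟩
    · intro e he
      rcases le_or_gt (lev en e) n with h | h
      · exact h.trans hl.le
      · exact (hB2 e h he).2
    · intro e h he
      exact (hB2 e h he).1
  choose nx nn SS BB hnx using hst
  let S : ℕ → StL en := fun k => Nat.rec ⟨(ω0, 0), hω0, fun e he => absurd he (hw0 e)⟩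
    (fun j s => nx j s) k
  have hS0 : ∀ k, S (k + 1) = nx k (S k) := fun k => rfl
  have hlt : ∀ k, (S k).1.2 < (S (k + 1)).1.2 := by
    intro k
    rw [hS0]
    exact lt_of_le_of_lt (hnx k (S k)).1 (hnx k (S k)).2.1
  have hge : ∀ k, k ≤ (S k).1.2 := by
    intro k
    induction k with
    | zero => exact Nat.zero_le _
    | succ k ih => exact lt_of_le_of_lt ih (hlt k)
  have hmono : ∀ k j, (S k).1.2 ≤ (S (k + j)).1.2 := by
    intro k j
    induction j with
    | zero => exact le_rfl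
    | succ j ih => exact ih.trans (hlt (k + j)).le
  have hag : ∀ k j, Agr en (S k).1.2 (S k).1.1 (S (k + j)).1.1 := by
    intro k j
    induction j with
    | zero => intro e _; rfl
    | succ j ih =>
      intro e he
      rw [ih e he]
      have h := (hnx (k + j) (S (k + j))).2.2.1 e
        ((he.trans (hmono k j)).trans (hnx (k + j) (S (k + j))).1)
      rw [h]
      rfl
  have hag' : ∀ k m, k ≤ m → Agr en (S k).1.2 (S k).1.1 (S m).1.1 := by
    intro k m hkm
    obtain ⟨j, rfl⟩ := Nat.exists_eq_add_of_le hkm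
    exact hag k j
  let ω : Wo := fun e => (S (lev en e)).1.1 e
  have hlim : ∀ k, Agr en (S k).1.2 (S k).1.1 ω := by
    intro k e he
    change (S k).1.1 e = (S (lev en e)).1.1 e
    rcases le_total k (lev en e) with h | h
    · exact hag' k (lev en e) h e he
    · exact (hag' (lev en e) k h e (hge _)).symm
  have hwf : WF en ω := by
    refine ⟨?_, ?_⟩
    · intro e w b h
      exact (S (lev en e)).2.1.wf e w b h
    · intro i z
      exact (S (lev en (i + 1, z))).2.1.tot i z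
  refine ⟨ω, hwf, ?_, fun k => nn k (S k), fun k => (S k).1.2, fun k => SS k (S k),
    fun k => BB k (S k), rfl, ?_, ?_⟩
  · intro k
    refine (hnx k (S k)).2.2.2.2.2.2 ω hwf ?_
    have h := hlim (k + 1)
    rw [hS0] at h
    exact h
  · intro k
    exact ⟨hlt k, (hnx k (S k)).2.2.2.1, (hnx k (S k)).2.2.2.2.1⟩
  · intro k e hk1 hk2 hwr
    have hw1 : Wrong en (S (k + 1)).1.1 e :=
      (hA3 en (S (k + 1)).1.2 (S (k + 1)).1.1 ω (hlim (k + 1)) e hk2).2 hwr
    have hn : nn k (S k) < lev en e := by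
      by_contra hcon
      rw [not_lt] at hcon
      have hA : Agr en (nn k (S k)) (S k).1.1 (S (k + 1)).1.1 := (hnx k (S k)).2.2.1
      have hw : Wrong en (S k).1.1 e := (hA3 en _ _ _ hA e hcon).2 hw1
      exact absurd ((S k).2.2 e hw) (not_le.2 hk1)
    exact ⟨hn, (hnx k (S k)).2.2.2.2.2.1 e hn hw1⟩

end Pool.ORS
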