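import Mathlib
import Pool.Agent.H16.ORS.W

/-!
# MP_5182ad_lc, oracle barrier with short advice, row STG: one stage
-/

open Polynomial Finset Classical
open Pool.ORB (Ad pre str Wo Enu Acc Tr inl al un LL AgO pair OM PT NP UP coUP Sig S2 PH AdvL S2L
  Fct FS Fn Val ans Hp Tp Np Sp)

namespace Pool.ORS

namespace STGP

theorem un_length (n : ℕ) : (un n).length = n := by
  unfold un
  rw [List.length_replicate]

/-- The stage for an abstract family of needle sets. -/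
theorem main (hCORE : Pool.ORB.CoreStmt) (hSTR : STRStmt) (hORW : ORWStmt)
    (hACC : Pool.ORB.ACCStmt) (hFAC : FACStmt) (hQRY : QRYStmt)
    (en : Enu) (M : OM) (P : ℕ[X]) (cl : ℕ → ℕ) (ω : Wo) (κ n m len time τ p : ℕ)
    (EE : Finset Ad) (hn : n = 24 * (κ + 1)) (hm : m = cl n) (hlen : len = 2 * n + 3 * m + 2)
    (htime : time = P.eval len) (hτ : τ = len + time + (3 * (3 * n + 1) + 2))
    (hp : p = time + m + 1)
    (h16 : 16 * Hp p * (Tp p) ^ 2 ≤ 2 ^ κ)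
    (hEE : ∀ e, e ∈ EE ↔ InE en n τ e)
    (V : {e // e ∈ EE} → List.Vector Bool (4 * κ) → Finset (List Bool))
    (hdisj : ∀ (e : {e // e ∈ EE}) (x y : List.Vector Bool (4 * κ)), x ≠ y →
      Disjoint (V e x) (V e y))
    (hbig : ∀ (e : {e // e ∈ EE}) (x : List.Vector Bool (4 * κ)), (2 ^ κ) ^ 2 ≤ (V e x).card)
    (hext : ∀ (a : {e // e ∈ EE} → List.Vector Bool (4 * κ)) (ρ : FS {e // e ∈ EE} (List Bool)),
      Fn ρ → Val V a ρ → ρ.card ≤ Sp p →
      (∃ ω' : Wo, Ext en ω n (Sp p) EE ω' ∧ ρ ⊆ fac EE ω' ∧ Val V a (fac EE ω') ∧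
        ∃ y : List Bool, y.length = n ∧ ω' (0, pair (un n) y) = none) ∧
      (∃ ω' : Wo, Ext en ω n (Sp p) EE ω' ∧ ρ ⊆ fac EE ω' ∧ Val V a (fac EE ω') ∧
        ∀ y : List Bool, y.length = n → ω' (0, pair (un n) y) ≠ none)) :
    ∃ (ω' : Wo) (ℓ' : ℕ), WF en ω' ∧ n < ℓ' ∧ Agr en n ω ω' ∧
      (∃ B : Finset Ad, B.card ≤ Sp p ∧
        ∀ e, n < lev en e → Wrong en ω' e → e ∈ B ∧ lev en e ≤ ℓ') ∧
      ∀ ω'' : Wo, WF en ω'' → Agr en ℓ' ω' ω'' → Fail M P cl (orc en ω'') := by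
  obtain ⟨hS1, hS2, hS3, hS4, hS5, hS6⟩ := hSTR
  have hinl : ∀ y z : List Bool, y.length = m → z.length = m →
      (pair (un n) (pair y z)).length = len := by
    intro y z hy hz
    rw [hS4, hS4, un_length, hy, hz, hlen]
    ring
  choose Q hQ1 hQ2 using fun (x : List Bool) (g : {e // e ∈ EE} → List Bool → Option Bool) =>
    hQRY en ω n EE M P x g
  let D : Pool.ORB.Dat {e // e ∈ EE} (List Bool) (List.Vector Bool m)
      (List.Vector Bool (4 * κ)) :=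
    { p := p
      q := 2 ^ κ
      hp := by omega
      hS := by
        rw [card_vector, Fintype.card_bool]
        exact Nat.pow_le_pow_right (by norm_num) (by omega)
      hq := h16
      hW := by
        rw [card_vector, Fintype.card_bool, ← pow_mul]
        congr 1
        ring
      V := V
      disj := hdisj
      big := hbig
      R := fun y z g => decide (Acc M P (orcg en ω n EE g) (pair (un n) (pair y.1 z.1)))
      Q := fun y z g => Q (pair (un n) (pair y.1 z.1)) g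
      card_le := by
        intro y z g
        refine (hQ1 _ g).trans ?_
        rw [hinl y.1 z.1 y.2 z.2, ← htime]
        omega
      loc := by
        intro y z g g' h
        exact decide_eq_decide.mpr (hQ2 _ g g' h) }
  -- the two families
  let Yes : ({e // e ∈ EE} → List.Vector Bool (4 * κ)) → Set (FS {e // e ∈ EE} (List Bool)) :=
    fun a => {U | ∃ ω' : Wo, Ext en ω n (Sp p) EE ω' ∧ U = fac EE ω' ∧ Val V a (fac EE ω') ∧
      ∃ y : List Bool, y.length = n ∧ ω' (0, pair (un n) y) = none}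
  let No : ({e // e ∈ EE} → List.Vector Bool (4 * κ)) → Set (FS {e // e ∈ EE} (List Bool)) :=
    fun a => {U | ∃ ω' : Wo, Ext en ω n (Sp p) EE ω' ∧ U = fac EE ω' ∧ Val V a (fac EE ω') ∧
      ∀ y : List Bool, y.length = n → ω' (0, pair (un n) y) ≠ none}
  have hcore := hCORE D Yes No
    (by
      rintro a U ⟨ω', h1, h2, h3, h4⟩
      rw [h2]
      exact ⟨hFAC.2.1 EE ω', h3⟩)
    (by
      rintro a U ⟨ω', h1, h2, h3, h4⟩
      rw [h2]
      exact ⟨hFAC.2.1 EE ω', h3⟩)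
    (by
      intro a ρ h1 h2 h3
      have h3' : ρ.card ≤ Sp p := h3
      obtain ⟨⟨ω1, g1, g2, g3, g4⟩, ⟨ω2, f1, f2, f3, f4⟩⟩ := hext a ρ h1 h2 h3'
      exact ⟨⟨fac EE ω1, ⟨ω1, g1, rfl, g3, g4⟩, g2⟩, ⟨fac EE ω2, ⟨ω2, f1, rfl, f3, f4⟩, f2⟩⟩)
  -- level of the rows
  have hrow : ∀ y : List Bool, y.length = n →
      lev en (0, pair (un n) y) ≤ τ := by
    intro y hy
    rw [((hS5 en (0, pair (un n) y)).1 rfl).2]
    show 3 * (pair (un n) y).length + 2 ≤ τ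
    rw [hS4, un_length, hy, hτ]
    omega
  -- agreement of the runs
  have hmono : ∀ (k l : ℕ) (ω' ω'' : Wo), k ≤ l → Agr en l ω' ω'' → Agr en k ω' ω'' :=
    fun k l ω' ω'' h h1 e he => h1 e (he.trans h)
  have hmonoO : ∀ (k l : ℕ) (O O' : Set (List Bool)), k ≤ l → AgO l O O' → AgO k O O' :=
    fun k l O O' h h1 s hs => h1 s (hs.trans h)
  have hagree : ∀ (ω' ω'' : Wo), Ext en ω n (Sp p) EE ω' → Agr en τ ω' ω'' →
      ∀ y z : List Bool, y.length = m → z.length = m →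
      (Acc M P (orcg en ω n EE (ans (fac EE ω'))) (pair (un n) (pair y z)) ↔
        Acc M P (orc en ω'') (pair (un n) (pair y z))) := by
    intro ω' ω'' hE hA y z hy hz
    have h1 : (pair (un n) (pair y z)).length +
        P.eval (pair (un n) (pair y z)).length ≤ τ := by
      rw [hinl y z hy hz, ← htime, hτ]
      omega
    rw [hACC.1 M P _ (orc en ω') (pair (un n) (pair y z))
      (hmonoO _ τ _ _ h1 (hFAC.2.2.2 en ω n τ (Sp p) EE ω' hEE hE))]
    apply hACC.1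
    exact hmonoO _ τ _ _ h1 (hORW.2.2 en τ ω' ω'' hA)
  -- the wrong addresses
  have hwrong : ∀ ω' : Wo, Ext en ω n (Sp p) EE ω' →
      ∃ B : Finset Ad, B.card ≤ Sp p ∧
        ∀ e, n < lev en e → Wrong en ω' e → e ∈ B ∧ lev en e ≤ τ + n + 1 := by
    intro ω' hE
    obtain ⟨_, _, _, B, hB1, hB2, hB3⟩ := hE
    refine ⟨B, hB1, fun e he hw => ?_⟩
    have hB := hB3 e he hw
    refine ⟨hB, ?_⟩
    rcases (hEE e).1 (hB2 e hB) with h | h
    · exact absurd h.1 hw.1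
    · have := h.2.2
      omega
  obtain ⟨a, ⟨U, ⟨ω', h1, h2, h3, h4⟩, h5⟩ | ⟨U, ⟨ω', h1, h2, h3, h4⟩, h5⟩⟩ := hcore
  · refine ⟨ω', τ + n + 1, h1.1, by omega, h1.2.1, hwrong ω' h1, ?_⟩
    intro ω'' hL hA
    have hAτ : Agr en τ ω' ω'' := hmono _ _ _ _ (by omega) hA
    refine ⟨un n, Or.inl ⟨?_, ?_⟩⟩
    · obtain ⟨y, hy1, hy2⟩ := h4
      refine ⟨y, by rw [hy1, un_length], ?_⟩
      intro w hw hmem
      rw [hORW.2.1 en ω'' (pair (un n) y) w hw] at hmem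
      obtain ⟨b, hb⟩ := hmem
      have h6 : ω' (0, pair (un n) y) = ω'' (0, pair (un n) y) := hAτ _ (hrow y hy1)
      rw [← h6, hy2] at hb
      exact absurd hb (by simp)
    · intro y hy
      rw [un_length, ← hm] at hy
      obtain ⟨z, hz⟩ := h5 ⟨y, hy⟩
      refine ⟨z.1, by rw [un_length, ← hm]; exact z.2, ?_⟩
      rw [← hagree ω' ω'' h1 hAτ y z.1 hy z.2]
      have h7 : decide (Acc M P (orcg en ω n EE (ans U)) (pair (un n) (pair y z.1))) = false := hz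
      rw [h2] at h7
      exact of_decide_eq_false h7
  · refine ⟨ω', τ + n + 1, h1.1, by omega, h1.2.1, hwrong ω' h1, ?_⟩
    intro ω'' hL hA
    have hAτ : Agr en τ ω' ω'' := hmono _ _ _ _ (by omega) hA
    refine ⟨un n, Or.inr ⟨?_, ?_⟩⟩
    · rintro ⟨y, hy1, hy2⟩
      rw [un_length] at hy1
      have h6 : ω' (0, pair (un n) y) = ω'' (0, pair (un n) y) := hAτ _ (hrow y hy1)
      obtain ⟨⟨w, b⟩, hwb⟩ := Option.ne_none_iff_exists'.1 (h4 y hy1)
      rw [h6] at hwb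
      have hw : w.length = (pair (un n) y).length := by
        rw [hL.wf _ _ _ hwb, ((hS5 en (0, pair (un n) y)).1 rfl).1]
      apply hy2 w hw
      rw [hORW.2.1 en ω'' (pair (un n) y) w hw]
      exact ⟨b, hwb⟩
    · intro z hz
      rw [un_length, ← hm] at hz
      obtain ⟨y, hy⟩ := h5 ⟨z, hz⟩
      refine ⟨y.1, by rw [un_length, ← hm]; exact y.2, ?_⟩
      rw [← hagree ω' ω'' h1 hAτ y.1 z y.2 hz]
      have h7 : decide (Acc M P (orcg en ω n EE (ans U)) (pair (un n) (pair y.1 z))) = true := hy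
      rw [h2] at h7
      exact of_decide_eq_true h7

end STGP

/-- **STG.** -/
theorem stg_row (hCORE : Pool.ORB.CoreStmt) (hSTR : STRStmt) (hORW : ORWStmt) (_hACC : ACCStmt)
    (hNUM : NUMStmt) (hFIN : FINStmt) (hNDL : NDLStmt) (hFAC : FACStmt) (hQRY : QRYStmt)
    (hEXT : EXTStmt) (hACC0 : Pool.ORB.ACCStmt) : STGStmt := by
  intro f ℓ en k M P r cl ω ℓ0 hc hcl hω
  obtain ⟨κ, hκ, h16, hSp, hMany⟩ := hNUM f ℓ en k P r cl ℓ0 hc hcl
  obtain ⟨EE, hEE⟩ := hFIN.1 en (24 * (κ + 1))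
    ((2 * (24 * (κ + 1)) + 3 * cl (24 * (κ + 1)) + 2) +
      P.eval (2 * (24 * (κ + 1)) + 3 * cl (24 * (κ + 1)) + 2) +
      (3 * (3 * (24 * (κ + 1)) + 1) + 2))
  have hlen : ∀ e ∈ EE, 6 * κ ≤ nl en e := by
    intro e he
    have := hFIN.2.1 en (24 * (κ + 1)) _ κ e rfl ((hEE e).1 he)
    omega
  obtain ⟨hN1, hN2, hN3⟩ := hNDL en EE κ hlen
  obtain ⟨ω', ℓ', g1, g2, g3, g4, g5⟩ := STGP.main hCORE hSTR hORW hACC0 hFAC hQRY en M P cl ω κ
    (24 * (κ + 1)) (cl (24 * (κ + 1))) (2 * (24 * (κ + 1)) + 3 * cl (24 * (κ + 1)) + 2)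
    (P.eval (2 * (24 * (κ + 1)) + 3 * cl (24 * (κ + 1)) + 2)) _ (pc P cl (24 * (κ + 1))) EE
    rfl rfl rfl rfl rfl rfl h16 hEE (ndl en (4 * κ) EE) hN1 hN2
    (fun a ρ h1 h2 h3 => hEXT en ω κ (24 * (κ + 1)) _ _ EE hω rfl hEE hSp a ρ h1 h2 h3)
  exact ⟨ω', 24 * (κ + 1), ℓ', Sp (pc P cl (24 * (κ + 1))), g1, by omega, g2, g3, hMany, g4, g5⟩

end Pool.ORS
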